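import Pool.Agent.N889.AO.Stm

/-!
# Project AO: from a number field to prime fields (StmRedB)
-/

set_option autoImplicit false
open Polynomial

namespace Pool.Agent.N650.AO

/-- an integral primitive element -/
lemma exists_prim (K : Type) [Field K] [NumberField K] :
    ∃ θ : K, IsIntegral ℤ θ ∧ ∀ x : K, ∃ q : ℚ[X], aeval θ q = x := by
  obtain ⟨α, hα⟩ := Field.exists_primitive_element ℚ K
  have hαa : IsAlgebraic ℚ α := Algebra.IsAlgebraic.isAlgebraic α
  have hαz : IsAlgebraic ℤ α := (IsFractionRing.isAlgebraic_iff ℤ ℚ K).2 hαa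
  obtain ⟨m, hm, hint⟩ := hαz.exists_integral_multiple
  refine ⟨m • α, hint, fun x => ?_⟩
  have h1 : x ∈ (IntermediateField.adjoin ℚ {α}).toSubalgebra := by
    rw [hα]
    trivial
  rw [IntermediateField.adjoin_simple_toSubalgebra_of_isAlgebraic hαa,
    Algebra.adjoin_singleton_eq_range_aeval] at h1
  obtain ⟨q, hq⟩ := h1
  refine ⟨q.comp (C ((m : ℚ)⁻¹) * X), ?_⟩
  rw [aeval_comp, map_mul, aeval_C, aeval_X]
  have hm0 : (m : K) ≠ 0 := by exact_mod_cast hm
  have e : algebraMap ℚ K ((m : ℚ)⁻¹) * m • α = α := by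
    rw [map_inv₀, map_intCast, zsmul_eq_mul, inv_mul_cancel_left₀ hm0]
  rw [e]
  exact hq

/-- clearing denominators -/
lemma exists_mult {K : Type} [Field K] [NumberField K] {θ : K}
    (h : ∀ x : K, ∃ q : ℚ[X], aeval θ q = x) (x : K) :
    ∃ (n : ℕ) (P : ℤ[X]), 0 < n ∧ aeval θ P = (n : K) * x := by
  obtain ⟨q, hq⟩ := h x
  obtain ⟨b, hb, hP⟩ := IsLocalization.integerNormalization_spec (nonZeroDivisors ℤ) q
  have hb0 : b ≠ 0 := nonZeroDivisors.ne_zero hb
  obtain ⟨P, hPd⟩ : ∃ P, P = IsLocalization.integerNormalization (nonZeroDivisors ℤ) q := ⟨_, rfl⟩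
  rw [← hPd] at hP
  refine ⟨b.natAbs, C b.sign * P, Int.natAbs_pos.2 hb0, ?_⟩
  have h1 : aeval θ P = (b : K) * x := by
    have h2 : aeval θ (P.map (algebraMap ℤ ℚ)) = aeval θ P := aeval_map_algebraMap ℚ θ P
    rw [← h2, hP, map_zsmul, hq, zsmul_eq_mul]
  rw [map_mul, aeval_C, h1, ← mul_assoc]
  congr 1
  have h3 : ((b.sign * b : ℤ) : K) = ((b.natAbs : ℤ) : K) := by
    rw [Int.sign_mul_self_eq_natAbs]
  push_cast at h3
  simpa using h3

/-- one denominator for a finite set -/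
lemma exists_den {K : Type} [Field K] [NumberField K] {θ : K}
    (h : ∀ x : K, ∃ q : ℚ[X], aeval θ q = x) (T : Finset K) :
    ∃ d : ℕ, 0 < d ∧ ∀ x ∈ T, ∃ P : ℤ[X], aeval θ P = (d : K) * x := by
  classical
  choose n P hn hP using exists_mult h
  refine ⟨∏ x ∈ T, n x, Finset.prod_pos fun x _ => hn x, fun x hx => ?_⟩
  refine ⟨C ((∏ y ∈ T.erase x, n y : ℕ) : ℤ) * P x, ?_⟩
  rw [← Finset.mul_prod_erase T n hx, map_mul, aeval_C, hP]
  push_cast
  ring

/-- **REDB** -/
theorem stmRedB : Pool.Agent.N889.AO.StmRedB := by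
  intro K _ _ T
  obtain ⟨θ, hθ, hpr⟩ := exists_prim K
  obtain ⟨d, hd, hT⟩ := exists_den hpr T
  refine ⟨minpoly ℤ θ, d, minpoly.natDegree_pos hθ, hd, ?_⟩
  intro p hp hpd hx
  obtain ⟨x₀, hx₀⟩ := hx
  have hf0 : aeval x₀ (minpoly ℤ θ) = 0 := by
    rw [aeval_def, eval₂_eq_eval_map]
    exact hx₀
  have hd0 : (d : ZMod p) ≠ 0 := by
    rw [Ne, ZMod.natCast_eq_zero_iff]
    exact hpd
  have hdK : (d : K) ≠ 0 := by exact_mod_cast hd.ne'
  -- representations
  have hrep : ∀ x ∈ Algebra.adjoin ℤ (T : Set K), ∃ (k : ℕ) (P : ℤ[X]),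
      aeval θ P = (d : K) ^ k * x := by
    intro x hx
    induction hx using Algebra.adjoin_induction with
    | mem x hx =>
      obtain ⟨P, hP⟩ := hT x hx
      exact ⟨1, P, by rw [pow_one]; exact hP⟩
    | algebraMap r => exact ⟨0, C r, by rw [aeval_C, pow_zero, one_mul]⟩
    | add x y _ _ h1 h2 =>
      obtain ⟨k, P, h1⟩ := h1
      obtain ⟨l, Q, h2⟩ := h2
      refine ⟨k + l, C ((d : ℤ) ^ l) * P + C ((d : ℤ) ^ k) * Q, ?_⟩
      rw [map_add, map_mul, map_mul, aeval_C, aeval_C, h1, h2]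
      simp only [map_pow, map_natCast]
      ring
    | mul x y _ _ h1 h2 =>
      obtain ⟨k, P, h1⟩ := h1
      obtain ⟨l, Q, h2⟩ := h2
      refine ⟨k + l, P * Q, ?_⟩
      rw [map_mul, h1, h2]
      ring
  -- independence of the representation
  have huniq : ∀ (x : K) (k l : ℕ) (P Q : ℤ[X]), aeval θ P = (d : K) ^ k * x →
      aeval θ Q = (d : K) ^ l * x →
      aeval x₀ P * ((d : ZMod p) ^ k)⁻¹ = aeval x₀ Q * ((d : ZMod p) ^ l)⁻¹ := by
    intro x k l P Q h1 h2
    have h3 : aeval θ (C ((d : ℤ) ^ l) * P - C ((d : ℤ) ^ k) * Q) = 0 := by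
      rw [map_sub, map_mul, map_mul, aeval_C, aeval_C, h1, h2]
      simp only [map_pow, map_natCast]
      ring
    obtain ⟨R, hR⟩ := minpoly.isIntegrallyClosed_dvd hθ h3
    have h4 := congrArg (aeval x₀) hR
    rw [map_mul, hf0, zero_mul, map_sub, map_mul, map_mul, aeval_C, aeval_C] at h4
    simp only [map_pow, map_natCast] at h4
    have h5 : (d : ZMod p) ^ k ≠ 0 := pow_ne_zero _ hd0
    have h6 : (d : ZMod p) ^ l ≠ 0 := pow_ne_zero _ hd0
    rw [← div_eq_mul_inv, ← div_eq_mul_inv, div_eq_div_iff h5 h6]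
    linear_combination h4
  choose! k P hP using hrep
  refine ⟨{
    toFun := fun x => aeval x₀ (P x) * ((d : ZMod p) ^ (k x))⁻¹
    map_one' := ?_
    map_mul' := ?_
    map_zero' := ?_
    map_add' := ?_ }⟩
  · have h1 := huniq 1 (k 1) 0 (P 1) 1 (hP 1 (one_mem _)) (by simp)
    rw [map_one, pow_zero, inv_one, one_mul] at h1
    exact h1
  · intro x y
    have h1 := huniq ((x : K) * y) (k (x * y)) (k x + k y) (P (x * y)) (P x * P y)
      (hP _ (mul_mem x.2 y.2)) (by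
        rw [map_mul, hP x x.2, hP y y.2]
        ring)
    rw [map_mul, pow_add, mul_inv] at h1
    refine Eq.trans h1 ?_
    ring
  · have h1 := huniq 0 (k 0) 0 (P 0) 0 (hP 0 (zero_mem _)) (by simp)
    rw [map_zero, zero_mul] at h1
    exact h1
  · intro x y
    have h1 := huniq ((x : K) + y) (k (x + y)) (k x + k y) (P (x + y))
      (C ((d : ℤ) ^ (k y)) * P x + C ((d : ℤ) ^ (k x)) * P y)
      (hP _ (add_mem x.2 y.2)) (by
        rw [map_add, map_mul, map_mul, aeval_C, aeval_C, hP x x.2, hP y y.2]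
        simp only [map_pow, map_natCast]
        ring)
    have h5 : (d : ZMod p) ^ (k x) ≠ 0 := pow_ne_zero _ hd0
    have h6 : (d : ZMod p) ^ (k y) ≠ 0 := pow_ne_zero _ hd0
    rw [map_add, map_mul, map_mul, aeval_C, aeval_C] at h1
    simp only [map_pow, map_natCast] at h1
    refine Eq.trans h1 ?_
    rw [pow_add]
    field_simp

end Pool.Agent.N650.AO
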